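import Pool.Agent.Helper83.Phi4.FourSrc
import Pool.Agent.Helper64.Phi4.Prof
import Pool.Agent.Helper78.Phi4.Pair

/-! The condition at rate `4 lam` (row G of the project). -/

set_option autoImplicit false

namespace Phi4

open Real Filter MeasureTheory intervalIntegral Set

theorem h83.E2_continuous (T : ℝ) (n m : ℕ) : Continuous (E2 T n m) := by
  unfold E2; fun_prop

theorem h83.O3_continuous (T : ℝ) (n m : ℕ) : Continuous (O3 T n m) := by
  unfold O3; fun_prop

theorem h83.F4_continuous (T : ℝ) (n m : ℕ) : Continuous (F4 T n m) := by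
  have h1 := h83.E2_continuous T n m
  have h2 := h83.O3_continuous T n m
  unfold F4; fun_prop

/-- the rates of the source -/
noncomputable def h83.rt (T lam : ℝ) : Option (ℕ × ℕ) → ℝ
  | none => 4 * lam
  | some p => lm T p.1 + lm T p.2

/-- the profiles of the source -/
noncomputable def h83.prf (T c : ℝ) (n m : ℕ) (B : ℕ → ℝ) : Option (ℕ × ℕ) → ℝ → ℝ
  | none => fun s => c ^ 4 * F4 T n m s
  | some p => fun s => (B p.1 * B p.2) * (3 * (sin (om T p.1 * s) * sin (om T p.2 * s)))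

theorem WSol.four_cond {T : ℝ} {w : ℝ → ℝ → ℝ} (W : WSol T w) (hT : 0 < T) {n m : ℕ}
    {c lam δ : ℝ} (hm : 1 ≤ m) (hmn : m < n) (hlam : 0 < lam) (hδ : 0 < δ)
    (h1 : lam ^ 2 = 2 - om T n ^ 2)
    (B : ℕ → ℝ) (hBn : B n = c)
    (hB : ∀ j, B j ≠ 0 → 1 ≤ j ∧ om T j ^ 2 < 2 ∧ lam ≤ lm T j ∧ lm T j < 3 * lam)
    (hev : EB T (2 * lam + δ) (fun x t => ev w x t - c ^ 2 * E2 T n m t * exp (-(2 * lam) * x)))
    (hod : EB T (3 * lam + δ) (fun x t => od w x t - msum T B x t
        - c ^ 3 * O3 T n m t * exp (-(3 * lam) * x)))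
    (hres : ∀ a : ℕ, (4 * lam) ^ 2 ≠ 2 - om T a ^ 2) :
    (∑ p ∈ (Finset.range (JJ T + 1) ×ˢ Finset.range (JJ T + 1)).filter
      (fun p => lm T p.1 + lm T p.2 = 4 * lam), (1 - Cf ((4 * lam) ^ 2 - 2) T) *
        (B p.1 * B p.2 * pc T (4 * lam) p.1 p.2))
      + c ^ 4 * Ef ((4 * lam) ^ 2 - 2) (F4 T n m) T = 0 := by
  classical
  obtain ⟨δ', hδ', hS⟩ := h83.src_expand hT hlam hδ h1 B hBn
    (fun j hj => ⟨(hB j hj).2.1, (hB j hj).2.2.1⟩) (h83.E2_continuous T n m)
    (h83.O3_continuous T n m) hev hod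
  let R := Finset.range (JJ T + 1) ×ˢ Finset.range (JJ T + 1)
  have hF : ∀ i, Continuous (h83.prf T c n m B i) := by
    rintro (_ | p)
    · have := h83.F4_continuous T n m
      change Continuous fun s => c ^ 4 * F4 T n m s
      fun_prop
    · change Continuous fun s => (B p.1 * B p.2) * (3 * (sin (om T p.1 * s) * sin (om T p.2 * s)))
      fun_prop
  have hS' : EB T (4 * lam + δ') (fun x t => srcS w x t -
      ∑ i ∈ Finset.insertNone R, h83.prf T c n m B i t * exp (-h83.rt T lam i * x)) := by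
    refine hS.congr fun x t _ _ => ?_
    rw [Finset.sum_insertNone]
    have h2 := h83.msum_sq T B x t
    change ∑ p ∈ R, (B p.1 * B p.2) * (3 * (sin (om T p.1 * t) * sin (om T p.2 * t))) *
        exp (-(lm T p.1 + lm T p.2) * x) = 3 * msum T B x t ^ 2 at h2
    change _ - (c ^ 4 * F4 T n m t * exp (-(4 * lam) * x) +
      ∑ p ∈ R, (B p.1 * B p.2) * (3 * (sin (om T p.1 * t) * sin (om T p.2 * t))) *
        exp (-(lm T p.1 + lm T p.2) * x)) = _
    rw [h2]
    unfold F4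
    ring
  have h3 := even_cond hT W.sEv W.eqn_ev W.ev_zero W.Dt_ev_zero W.ev_T (Finset.insertNone R)
    (h83.rt T lam) (h83.prf T c n m B) hF (4 * lam + δ') hS' (4 * lam) (by linarith)
  have h4 : (Finset.insertNone R).filter (fun i => h83.rt T lam i = 4 * lam) =
      Finset.insertNone (R.filter fun p => lm T p.1 + lm T p.2 = 4 * lam) := by
    ext i
    rcases i with _ | p
    · simp [h83.rt]
    · simp [h83.rt]
  rw [h4, Finset.sum_insertNone] at h3
  have h5 : Ef ((4 * lam) ^ 2 - 2) (h83.prf T c n m B none) T =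
      c ^ 4 * Ef ((4 * lam) ^ 2 - 2) (F4 T n m) T := Ef_const_mul _ _ _ _
  have h6 : ∀ p : ℕ × ℕ, Ef ((4 * lam) ^ 2 - 2) (h83.prf T c n m B (some p)) T =
      (1 - Cf ((4 * lam) ^ 2 - 2) T) * (B p.1 * B p.2 * pc T (4 * lam) p.1 p.2) := by
    intro p
    change Ef ((4 * lam) ^ 2 - 2)
      (fun s => (B p.1 * B p.2) * (3 * (sin (om T p.1 * s) * sin (om T p.2 * s)))) T = _
    rw [Ef_const_mul, Ef_pair hT hres]
    ring
  rw [h5, add_comm] at h3
  rw [← h3]
  congr 1
  exact Finset.sum_congr rfl fun p _ => (h6 p).symm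

end Phi4
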