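import Pool.Agent.Helper88.PhiN

/-! The source of the even part up to rate `4 lam` (row G of the project). -/

set_option autoImplicit false

namespace Phi4.h83

open Real Filter MeasureTheory intervalIntegral Set

theorem exists_gap {ι : Type} (s : Finset ι) (g : ι → ℝ) (h : ∀ i ∈ s, 0 < g i) :
    ∃ δ : ℝ, 0 < δ ∧ ∀ i ∈ s, δ ≤ g i := by
  classical
  induction s using Finset.induction_on with
  | empty => exact ⟨1, one_pos, by simp⟩
  | insert a s ha ih =>
    obtain ⟨δ, hδ, h1⟩ := ih fun i hi => h i (Finset.mem_insert_of_mem hi)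
    refine ⟨min δ (g a), lt_min hδ (h a (Finset.mem_insert_self _ _)), fun i hi => ?_⟩
    rcases Finset.mem_insert.1 hi with rfl | hi
    · exact min_le_right _ _
    · exact (min_le_left _ _).trans (h1 i hi)

theorem om_inj {T : ℝ} (hT : 0 < T) {i j : ℕ} (h : om T i ^ 2 = om T j ^ 2) : i = j := by
  have h1 : om T i = om T j := by
    have h2 := om_nonneg hT i
    have h3 := om_nonneg hT j
    nlinarith [sq_nonneg (om T i - om T j), sq_eq_sq₀ h2 h3 |>.1 h]
  unfold om at h1
  have h4 : (0:ℝ) < 2 * π / T := by positivity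
  exact_mod_cast mul_right_cancel₀ h4.ne' h1

theorem le_JJ {T : ℝ} (hT : 0 < T) {j : ℕ} (h : om T j ^ 2 ≤ 2) : j ≤ JJ T := by
  by_contra hj
  push Not at hj
  have h1 := lt_om_JJ hT
  have h2 : om T (JJ T + 1) ≤ om T j := by
    unfold om
    have : ((JJ T + 1 : ℕ) : ℝ) ≤ j := by exact_mod_cast hj
    gcongr
  have h3 := om_nonneg hT (JJ T + 1)
  nlinarith

/-- the modes besides the leading one -/
theorem msum_sub {T lam : ℝ} {n : ℕ} {B : ℕ → ℝ} (hT : 0 < T) (hlam : 0 < lam)
    (h1 : lam ^ 2 = 2 - om T n ^ 2)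
    (hB : ∀ j, B j ≠ 0 → om T j ^ 2 < 2 ∧ lam ≤ lm T j) :
    ∃ δ : ℝ, 0 < δ ∧
      EB T (lam + δ) (fun x t => msum T B x t - B n * (sin (om T n * t) * exp (-lam * x))) := by
  classical
  have hn : lm T n = lam := by
    unfold lm
    rw [← h1, sqrt_sq hlam.le]
  have hnJ : n ∈ Finset.range (JJ T + 1) :=
    Finset.mem_range.2 (Nat.lt_succ_of_le (le_JJ hT (by nlinarith [sq_nonneg lam])))
  obtain ⟨δ, hδ, hgap⟩ := exists_gap
    ((Finset.range (JJ T + 1)).filter (fun j => j ≠ n ∧ B j ≠ 0)) (fun j => lm T j - lam) (by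
      intro j hj
      obtain ⟨-, hjn, hBj⟩ := Finset.mem_filter.1 hj
      obtain ⟨h2, h3⟩ := hB j hBj
      rcases h3.lt_or_eq with h4 | h4
      · linarith
      · exfalso
        apply hjn
        apply om_inj hT
        have h5 := lm_sq (T := T) (j := j) h2.le
        rw [← h4, h1] at h5
        linarith)
  refine ⟨δ, hδ, ?_⟩
  have h2 : EB T (lam + δ) (fun x t => ∑ j ∈ (Finset.range (JJ T + 1)).erase n,
      B j * exp (-lm T j * x) * sin (om T j * t)) := by
    refine EB.sum _ fun j hj => ?_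
    obtain ⟨hjn, hj⟩ := Finset.mem_erase.1 hj
    by_cases hBj : B j = 0
    · exact (EB.zero T _).congr fun x t _ _ => by rw [hBj]; ring
    · have h3 := hgap j (Finset.mem_filter.2 ⟨hj, hjn, hBj⟩)
      have h4 : EB T (lm T j) (fun x t => (B j * sin (om T j * t)) * exp (-lm T j * x)) :=
        EB.profile (F := fun t => B j * sin (om T j * t)) (by fun_prop)
      exact (h4.mono (by linarith)).congr fun x t _ _ => by ring
  refine h2.congr fun x t _ _ => ?_
  unfold msum
  rw [← Finset.add_sum_erase _ _ hnJ, hn]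
  ring

theorem msum_sq (T : ℝ) (B : ℕ → ℝ) (x t : ℝ) :
    ∑ p ∈ Finset.range (JJ T + 1) ×ˢ Finset.range (JJ T + 1),
      (B p.1 * B p.2) * (3 * (sin (om T p.1 * t) * sin (om T p.2 * t))) *
        exp (-(lm T p.1 + lm T p.2) * x) = 3 * msum T B x t ^ 2 := by
  rw [sq, msum, Finset.sum_mul_sum, Finset.mul_sum, Finset.sum_product]
  refine Finset.sum_congr rfl fun i _ => ?_
  rw [Finset.mul_sum]
  refine Finset.sum_congr rfl fun j _ => ?_
  rw [show -(lm T i + lm T j) * x = -lm T i * x + -lm T j * x by ring, exp_add]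
  ring

/-- the source of the even part, up to rate `4 lam` -/
theorem src_expand {T : ℝ} {w : ℝ → ℝ → ℝ} (hT : 0 < T) {n : ℕ}
    {c lam δ : ℝ} (hlam : 0 < lam) (hδ : 0 < δ)
    (h1 : lam ^ 2 = 2 - om T n ^ 2) (B : ℕ → ℝ) (hBn : B n = c)
    (hB : ∀ j, B j ≠ 0 → om T j ^ 2 < 2 ∧ lam ≤ lm T j) {E O : ℝ → ℝ}
    (hE : Continuous E) (hO : Continuous O)
    (hev : EB T (2 * lam + δ) (fun x t => ev w x t - c ^ 2 * E t * exp (-(2 * lam) * x)))
    (hod : EB T (3 * lam + δ) (fun x t => od w x t - msum T B x t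
        - c ^ 3 * O t * exp (-(3 * lam) * x))) :
    ∃ δ' : ℝ, 0 < δ' ∧ EB T (4 * lam + δ') (fun x t => srcS w x t - 3 * msum T B x t ^ 2
      - c ^ 4 * (6 * (sin (om T n * t) * O t) + 3 * (sin (om T n * t) ^ 2 * E t) + 3 * E t ^ 2) *
        exp (-(4 * lam) * x)) := by
  obtain ⟨δ1, hδ1, hM⟩ := msum_sub hT hlam h1 hB
  rw [hBn] at hM
  let A : ℝ → ℝ → ℝ := fun x t => c * (sin (om T n * t) * exp (-lam * x))
  let M : ℝ → ℝ → ℝ := msum T B
  let N : ℝ → ℝ → ℝ := fun x t => c ^ 3 * O t * exp (-(3 * lam) * x)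
  let P : ℝ → ℝ → ℝ := fun x t => c ^ 2 * E t * exp (-(2 * lam) * x)
  let M' : ℝ → ℝ → ℝ := fun x t => M x t - A x t
  let r : ℝ → ℝ → ℝ := fun x t => od w x t - M x t - N x t
  let s : ℝ → ℝ → ℝ := fun x t => ev w x t - P x t
  have hA : EB T lam A := by
    have := EB.profile (T := T) (κ := lam) (F := fun t => c * sin (om T n * t)) (by fun_prop)
    exact this.congr fun x t _ _ => by simp only [A]; ring
  have hN : EB T (3 * lam) N :=
    EB.profile (T := T) (κ := 3 * lam) (F := fun t => c ^ 3 * O t) (by fun_prop)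
  have hP : EB T (2 * lam) P :=
    EB.profile (T := T) (κ := 2 * lam) (F := fun t => c ^ 2 * E t) (by fun_prop)
  have hM' : EB T (lam + δ1) M' := hM
  have hMe : EB T lam M := ((hM'.mono (σ' := lam) (by linarith)).add hA).congr fun x t _ _ => by
    simp only [M']; ring
  have hr : EB T (3 * lam + δ) r := hod
  have hs : EB T (2 * lam + δ) s := hev
  have hNr : EB T (3 * lam) (fun x t => N x t + r x t) := hN.add (hr.mono (by linarith))
  have hevE : EB T (2 * lam) (ev w) := (hP.add (hs.mono (σ' := 2 * lam) (by linarith))).congr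
    fun x t _ _ => by simp only [s]; ring
  have hodE : EB T lam (od w) := (hMe.add (hNr.mono (σ' := lam) (by linarith))).congr
    fun x t _ _ => by simp only [r]; ring
  refine ⟨min δ1 (min δ (2 * lam)), by positivity, ?_⟩
  set δ' := min δ1 (min δ (2 * lam)) with hδ'
  have hd1 : δ' ≤ δ1 := min_le_left _ _
  have hd2 : δ' ≤ δ := (min_le_right _ _).trans (min_le_left _ _)
  have hd3 : δ' ≤ 2 * lam := (min_le_right _ _).trans (min_le_right _ _)
  -- the difference of the odd part and its leading mode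
  have hD : EB T (lam + δ') (fun x t => od w x t - A x t) :=
    ((hM'.mono (σ' := lam + δ') (by linarith)).add
      (hNr.mono (σ' := lam + δ') (by linarith))).congr fun x t _ _ => by
        simp only [r, M']; ring
  have e1 : EB T (4 * lam + δ') (fun x t => 6 * (M' x t * N x t)) :=
    ((hM'.mul hN).mono (by linarith)).const_mul 6
  have e2 : EB T (4 * lam + δ') (fun x t => 6 * (M x t * r x t)) :=
    ((hMe.mul hr).mono (by linarith)).const_mul 6
  have e3 : EB T (4 * lam + δ') (fun x t => 3 * ((N x t + r x t) * (N x t + r x t))) :=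
    ((hNr.mul hNr).mono (by linarith)).const_mul 3
  have e4 : EB T (4 * lam + δ')
      (fun x t => 3 * ((od w x t - A x t) * ((od w x t + A x t) * P x t))) :=
    ((hD.mul ((hodE.add hA).mul hP)).mono (by linarith)).const_mul 3
  have e5 : EB T (4 * lam + δ') (fun x t => 3 * (od w x t * (od w x t * s x t))) :=
    ((hodE.mul (hodE.mul hs)).mono (by linarith)).const_mul 3
  have e6 : EB T (4 * lam + δ') (fun x t => 3 * (s x t * (ev w x t + P x t))) :=
    ((hs.mul (hevE.add hP)).mono (by linarith)).const_mul 3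
  have e7 : EB T (4 * lam + δ') (fun x t => ev w x t * (ev w x t * ev w x t)) :=
    (hevE.mul (hevE.mul hevE)).mono (by linarith)
  refine ((((((e1.add e2).add e3).add e4).add e5).add e6).add e7).congr fun x t _ _ => ?_
  have x4a : exp (-(4 * lam) * x) = exp (-lam * x) * exp (-(3 * lam) * x) := by
    rw [← exp_add]; congr 1; ring
  have x4b : exp (-(4 * lam) * x) = exp (-lam * x) ^ 2 * exp (-(2 * lam) * x) := by
    rw [← exp_nat_mul, ← exp_add]; congr 1; push_cast; ring
  have x4c : exp (-(4 * lam) * x) = exp (-(2 * lam) * x) ^ 2 := by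
    rw [← exp_nat_mul]; congr 1; push_cast; ring
  have y1 : c ^ 4 * (6 * (sin (om T n * t) * O t) + 3 * (sin (om T n * t) ^ 2 * E t)
      + 3 * E t ^ 2) * exp (-(4 * lam) * x) =
      6 * (A x t * N x t) + 3 * (A x t ^ 2 * P x t) + 3 * P x t ^ 2 := by
    have z1 : 6 * (A x t * N x t) = c ^ 4 * (6 * (sin (om T n * t) * O t)) *
        exp (-(4 * lam) * x) := by
      rw [x4a]; simp only [A, N]; ring
    have z2 : 3 * (A x t ^ 2 * P x t) = c ^ 4 * (3 * (sin (om T n * t) ^ 2 * E t)) *
        exp (-(4 * lam) * x) := by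
      rw [x4b]; simp only [A, P]; ring
    have z3 : 3 * P x t ^ 2 = c ^ 4 * (3 * E t ^ 2) * exp (-(4 * lam) * x) := by
      rw [x4c]; simp only [P]; ring
    rw [z1, z2, z3]; ring
  rw [y1]
  unfold srcS
  simp only [M', r, s, M]
  ring

end Phi4.h83
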